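import Pool.Agent.Helper41.OA.Defs
import Pool.Agent.Helper41.OA.St.Stubs
import Pool.Agent.Helper47.Grothendieck

set_option autoImplicit false

/-!
# Project OA (`MP_20ef18_an`), piece OA-3: `α` is bounded on `𝓛`
-/

namespace Pool.Agent.Helper81.OA

open Finset
open Pool.Agent.Helper41.OA Pool.Agent.Helper47.Grothendieck

lemma le_injNorm (γ : ℕ → ℕ → ℂ) (N : ℕ) (x y : ℕ → ℂ) (hx : ∀ m, ‖x m‖ ≤ 1)
    (hy : ∀ k, ‖y k‖ ≤ 1) :
    ENNReal.ofReal ‖∑ m ∈ range N, ∑ k ∈ range N, γ m k * x m * y k‖ ≤ injNorm γ := by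
  unfold injNorm
  refine le_iSup_of_le N ?_
  refine le_iSup_of_le x ?_
  refine le_iSup_of_le y ?_
  refine le_iSup_of_le hx ?_
  exact le_iSup_of_le hy le_rfl

lemma BB_of_injNorm (γ : ℕ → ℕ → ℂ) (hγ : injNorm γ ≠ ⊤) (N : ℕ) :
    BB (fun (i j : Fin N) => γ i j) (injNorm γ).toReal := by
  intro s t hs ht
  set x : ℕ → ℂ := fun m => if h : m < N then s ⟨m, h⟩ else 0 with hx
  set y : ℕ → ℂ := fun m => if h : m < N then t ⟨m, h⟩ else 0 with hy
  have h1 := le_injNorm γ N x y (fun m => by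
      simp only [hx]; split_ifs
      · exact hs _
      · simp) (fun m => by
      simp only [hy]; split_ifs
      · exact ht _
      · simp)
  have h2 : ∑ m ∈ range N, ∑ k ∈ range N, γ m k * x m * y k =
      ∑ i : Fin N, ∑ j : Fin N, γ i j * s i * t j := by
    rw [Finset.sum_range]
    refine sum_congr rfl (fun i _ => ?_)
    rw [Finset.sum_range]
    refine sum_congr rfl (fun j _ => ?_)
    simp [hx, hy]
  rw [h2] at h1
  exact (ENNReal.ofReal_le_iff_le_toReal hγ).mp h1

lemma sum_range_antidiagonal {M : Type*} [AddCommMonoid M] (N : ℕ) (F : ℕ × ℕ → M) :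
    ∑ m ∈ range N, ∑ p ∈ antidiagonal m, F p =
      ∑ i ∈ range N, ∑ j ∈ range N, if i + j < N then F (i, j) else 0 := by
  rw [← sum_product', ← sum_filter, sum_sigma']
  refine sum_nbij' (fun s => s.2) (fun p => ⟨p.1 + p.2, p⟩) ?_ ?_ ?_ ?_ ?_
  · rintro ⟨m, p⟩ h
    simp only [mem_sigma, mem_range, HasAntidiagonal.mem_antidiagonal] at h
    simp only [mem_filter, mem_product, mem_range]
    omega
  · rintro p h
    simp only [mem_filter, mem_product, mem_range] at h
    simp only [mem_sigma, mem_range, HasAntidiagonal.mem_antidiagonal]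
    exact ⟨h.2, trivial⟩
  · rintro ⟨m, p⟩ h
    simp only [mem_sigma, mem_range, HasAntidiagonal.mem_antidiagonal] at h
    obtain ⟨_, rfl⟩ := h
    rfl
  · rintro p h
    rfl
  · rintro ⟨m, p⟩ h
    rfl

/-- the two halves of the Hankel matrix -/
lemma pairing_of_BB {α : ℕ → ℂ} (hα : RowSq α) (γ : ℕ → ℕ → ℂ) {B : ℝ} (M : ℕ)
    (hB : BB (fun (i j : Fin M) => γ i j) B) :
    ‖∑ n ∈ range M, α n * ∑ p ∈ antidiagonal n, γ p.1 p.2‖ ≤ 192 * B := by
  have hH := grothendieck hB
  -- lower half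
  have h1 := hH (Fin M)
    (fun i l => if (l : ℕ) ≤ i ∧ (i : ℕ) + l < M then α (i + l) else 0)
    (fun j l => if l = j then 1 else 0) (by
      intro i
      refine le_trans ?_ (hα i M)
      rw [Finset.sum_range]
      refine sum_le_sum fun l _ => ?_
      by_cases hl : (l : ℕ) ≤ i
      · by_cases hl' : (i : ℕ) + l < M
        · rw [if_pos ⟨hl, hl'⟩, if_pos hl]
        · rw [if_neg (fun h => hl' h.2)]
          rw [norm_zero, zero_pow two_ne_zero]
          exact sq_nonneg _
      · rw [if_neg (fun h => hl h.1), if_neg hl])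
    (by
      intro j
      rw [sum_eq_single j (fun l _ hl => by rw [if_neg hl]; simp) (by simp)]
      simp)
  -- upper half
  have h2 := hH (Fin M)
    (fun i l => if l = i then 1 else 0)
    (fun j l => if (l : ℕ) < j ∧ (j : ℕ) + l < M then α (j + l) else 0) (by
      intro j
      rw [sum_eq_single j (fun l _ hl => by rw [if_neg hl]; simp) (by simp)]
      simp)
    (by
      intro i
      refine le_trans ?_ (hα i M)
      rw [Finset.sum_range]
      refine sum_le_sum fun l _ => ?_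
      by_cases hl : (l : ℕ) < i
      · by_cases hl' : (i : ℕ) + l < M
        · rw [if_pos ⟨hl, hl'⟩, if_pos hl.le]
        · rw [if_neg (fun h => hl' h.2)]
          rw [norm_zero, zero_pow two_ne_zero]
          exact sq_nonneg _
      · rw [if_neg (fun h => hl h.1)]
        rw [norm_zero, zero_pow two_ne_zero]
        exact sq_nonneg _)
  have key : ∑ n ∈ range M, α n * ∑ p ∈ antidiagonal n, γ p.1 p.2 =
      (∑ i : Fin M, ∑ j : Fin M, γ i j * ∑ l : Fin M,
        (if (l : ℕ) ≤ i ∧ (i : ℕ) + l < M then α (i + l) else 0) * (if l = j then 1 else 0)) +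
      ∑ i : Fin M, ∑ j : Fin M, γ i j * ∑ l : Fin M,
        (if l = i then 1 else 0) * (if (l : ℕ) < j ∧ (j : ℕ) + l < M then α (j + l) else 0) := by
    have e1 : ∑ n ∈ range M, α n * ∑ p ∈ antidiagonal n, γ p.1 p.2 =
        ∑ n ∈ range M, ∑ p ∈ antidiagonal n, α (p.1 + p.2) * γ p.1 p.2 := by
      refine sum_congr rfl fun n _ => ?_
      rw [mul_sum]
      refine sum_congr rfl fun p hp => ?_
      rw [HasAntidiagonal.mem_antidiagonal.mp hp]
    rw [e1, sum_range_antidiagonal, Finset.sum_range, ← sum_add_distrib]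
    refine sum_congr rfl fun i _ => ?_
    rw [Finset.sum_range, ← sum_add_distrib]
    refine sum_congr rfl fun j _ => ?_
    have e2 : ∑ l : Fin M, (if (l : ℕ) ≤ i ∧ (i : ℕ) + l < M then α (i + l) else 0) *
        (if l = j then 1 else 0) = if (j : ℕ) ≤ i ∧ (i : ℕ) + j < M then α (i + j) else 0 := by
      rw [sum_eq_single j (fun l _ hl => by rw [if_neg hl, mul_zero]) (by simp)]
      simp
    have e3 : ∑ l : Fin M, (if l = i then 1 else 0) *
        (if (l : ℕ) < j ∧ (j : ℕ) + l < M then α (j + l) else 0) =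
        if (i : ℕ) < j ∧ (j : ℕ) + i < M then α (j + i) else 0 := by
      rw [sum_eq_single i (fun l _ hl => by rw [if_neg hl, zero_mul]) (by simp)]
      simp
    rw [e2, e3]
    by_cases hij : (i : ℕ) + j < M
    · have hji : (j : ℕ) + i < M := by omega
      rcases le_or_gt (j : ℕ) i with h | h
      · rw [if_pos hij, if_pos ⟨h, hij⟩, if_neg (fun h' => absurd h'.1 (not_lt.2 h))]
        ring
      · rw [if_pos hij, if_neg (fun h' => absurd h'.1 (not_le.2 h)), if_pos ⟨h, hji⟩,
          Nat.add_comm (j : ℕ) i]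
        ring
    · have hji : ¬ (j : ℕ) + i < M := by omega
      rw [if_neg hij, if_neg (fun h => hij h.2), if_neg (fun h => hji h.2)]
      ring
  rw [key]
  refine (norm_add_le _ _).trans ?_
  linarith

/-- OA-3. `α` is bounded on `𝓛`. -/
theorem pairing_L {α : ℕ → ℂ} (hα : RowSq α) {φ : ℂ → ℂ} {c : ℕ → ℂ} (hc : HasTaylor c φ)
    (M : ℕ) : ENNReal.ofReal ‖∑ n ∈ range M, α n * c n‖ ≤ 192 * normL φ := by
  have h192 : (192 : ENNReal) ≠ 0 := by norm_num
  have h192' : (192 : ENNReal) ≠ ⊤ := by norm_num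
  rw [← ENNReal.div_le_iff' h192 h192']
  unfold normL
  refine le_iInf₂ fun γ hγ => ?_
  rw [ENNReal.div_le_iff' h192 h192']
  by_cases hfin : injNorm γ = ⊤
  · rw [hfin, ENNReal.mul_top h192]
    exact le_top
  · have hcg := St.taylor_unique hc hγ
    have h1 := pairing_of_BB hα γ M (BB_of_injNorm γ hfin M)
    rw [hcg]
    calc ENNReal.ofReal ‖∑ n ∈ range M, α n * ∑ p ∈ antidiagonal n, γ p.1 p.2‖
        ≤ ENNReal.ofReal (192 * (injNorm γ).toReal) := ENNReal.ofReal_le_ofReal h1
      _ = 192 * injNorm γ := by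
          rw [ENNReal.ofReal_mul (by norm_num), ENNReal.ofReal_toReal hfin]
          norm_num

end Pool.Agent.Helper81.OA
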